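import Pool.Agent.helper68.SG.SpecF

/-!
# Project sg, module F03: transport of stationary measures from the closed disc to the plane
-/

set_option autoImplicit false

open MeasureTheory Set Metric Filter Topology
open scoped ENNReal NNReal ComplexConjugate commutatorElement

namespace Pool.Agent.SG

theorem F03_meas {Γ : Type} [Group Γ] (A : DiscRep Γ) (γ : Γ) : Measurable (A.act γ) := by
  unfold DiscRep.act mob
  fun_prop

theorem F03 : F03_stmt := by
  intro Γ _ μ ρ A W ν hact hS hμ hst
  have hprob := hst.prob
  have hval : Measurable (Subtype.val : CDisc → ℂ) := measurable_subtype_coe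
  refine ⟨Measure.isProbabilityMeasure_map hval.aemeasurable, ?_, ?_⟩
  · have hc : MeasurableSet (circᶜ : Set ℂ) := by
      unfold circ
      exact (isClosed_sphere).measurableSet.compl
    rw [Measure.map_apply hval hc]
    have e : (Subtype.val ⁻¹' circᶜ : Set CDisc) = {z : CDisc | ‖(z : ℂ)‖ = 1}ᶜ := by
      ext z
      simp [circ]
    rw [e]
    exact hst.boundary
  · ext E hE
    rw [Measure.map_apply hval hE, hst.stationary _ (hval hE), Measure.finsetSum_apply]
    rw [tsum_eq_sum (s := W.S)]
    · refine Finset.sum_congr rfl fun γ _ => ?_
      rw [Measure.smul_apply, smul_eq_mul, Measure.map_apply (F03_meas A γ) hE,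
        Measure.map_apply hval (F03_meas A γ hE), hμ γ]
      congr 2
      ext z
      simp only [mem_preimage]
      rw [hact γ z]
    · intro γ hγ
      have h1 : γ ∉ μ.support := by
        rw [← hS]
        exact fun h => hγ (Finset.mem_coe.1 h)
      rw [PMF.mem_support_iff, not_not] at h1
      rw [h1, zero_mul]

end Pool.Agent.SG
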