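import Pool.Agent.helper48.SG.SpecH

/-!
# Project sg, module H09: the contraction step
-/

set_option autoImplicit false

open MeasureTheory Set Metric Filter Topology
open scoped ENNReal NNReal ComplexConjugate

namespace Pool.Agent.SG

/-- conversion of the two inequalities of H07 to real numbers. -/
theorem H09_conv (Q a b Hx Hx' Hp Hp' : ℝ) (hQ : 0 ≤ Q) (ha : 0 ≤ a) (hb : 0 ≤ b) (hx : 0 ≤ Hx)
    (hx' : 0 ≤ Hx') (hp : 0 ≤ Hp) (hp' : 0 ≤ Hp')
    (h : ENNReal.ofReal Q * ENNReal.ofReal Hp + ENNReal.ofReal a * ENNReal.ofReal Hx' ≤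
        ENNReal.ofReal Hx + ENNReal.ofReal a * (ENNReal.ofReal Q * ENNReal.ofReal Hp') ∧
      ENNReal.ofReal Hx + ENNReal.ofReal b * (ENNReal.ofReal Q * ENNReal.ofReal Hp') ≤
        ENNReal.ofReal Q * ENNReal.ofReal Hp + ENNReal.ofReal b * ENNReal.ofReal Hx') :
    Q * Hp + a * Hx' ≤ Hx + a * (Q * Hp') ∧ Hx + b * (Q * Hp') ≤ Q * Hp + b * Hx' := by
  obtain ⟨h1, h2⟩ := h
  rw [← ENNReal.ofReal_mul hQ, ← ENNReal.ofReal_mul hQ, ← ENNReal.ofReal_mul ha,
    ← ENNReal.ofReal_mul ha, ← ENNReal.ofReal_add (by positivity) (by positivity),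
    ← ENNReal.ofReal_add (by positivity) (by positivity),
    ENNReal.ofReal_le_ofReal_iff (by positivity)] at h1
  rw [← ENNReal.ofReal_mul hQ, ← ENNReal.ofReal_mul hQ, ← ENNReal.ofReal_mul hb,
    ← ENNReal.ofReal_mul hb, ← ENNReal.ofReal_add (by positivity) (by positivity),
    ← ENNReal.ofReal_add (by positivity) (by positivity),
    ENNReal.ofReal_le_ofReal_iff (by positivity)] at h2
  exact ⟨h1, h2⟩

theorem H09 (hH01 : H01_stmt) (hH02 : H02_stmt) (hH06 : H06_stmt) (hH07 : H07_stmt)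
    (hH08 : H08_stmt) (hB03 : B03_stmt) (hP10 : P10_stmt) : H09_stmt := by
  intro Γ _ A W ν C hC
  obtain ⟨c₀, M, hc0, hc1, hM, h6⟩ := hH06 Γ A W ν C hC
  obtain ⟨-, -, -, -, hnl, hln, hpn, -⟩ := hH01 Γ A W ν C hC
  obtain ⟨hkk, -⟩ := hB03 Γ A
  have hC1 := hC.one
  have hC0 : 0 < C := by linarith
  have hM0 : 0 < M := by linarith
  set σ : ℝ := c₀ ^ 2 / (4 * C ^ 2) with hσ
  have hσ0 : 0 < σ := by positivity
  have hσ1 : σ ≤ 1 / 4 := by
    rw [hσ, div_le_div_iff₀ (by positivity) (by norm_num)]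
    have e1 : c₀ ^ 2 ≤ 1 := pow_le_one₀ hc0.le hc1
    have e2 : 1 ≤ C ^ 2 := one_le_pow₀ hC1
    linarith
  refine ⟨c₀ / (2 * M), 1 - σ, by positivity, ?_, by linarith, by linarith, ?_⟩
  · rw [div_lt_one (by positivity)]
    linarith
  intro u c s E E' hu hc hs hsc hs1 hE hE' hEf hEf' a b ha hab hyp
  set t : ℝ := s / M with ht
  have ht0 : 0 < t := by positivity
  have hts : t ≤ s := div_le_self hs.le hM
  have hMt : M * t = s := by
    rw [ht]
    field_simp
  obtain ⟨hexit, p, hpt, hpk, hhid⟩ := h6 u t hu ht0 (by rw [hMt]; exact hs1)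
  have h8t : 8 * t ≤ c := by linarith
  have hbalE := hH08 Γ A W ν C hC u c t E hu hc h8t hE hEf
  have hbalE' := hH08 Γ A W ν C hC u c t E' hu hc h8t hE' hEf'
  -- finiteness
  have hfin : ∀ x F, nux A ν x F ≠ ∞ := fun x F => by
    have := hpn x
    exact measure_ne_top _ _
  have hre : ∀ x F, nux A ν x F = ENNReal.ofReal ((nux A ν x).real F) := fun x F => by
    rw [measureReal_def, ENNReal.ofReal_toReal (hfin x F)]
  have hnn : ∀ x F, 0 ≤ (nux A ν x).real F := fun x F => measureReal_nonneg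
  have hb : 0 ≤ b := ha.trans hab
  -- the visual measure of `E'`
  have hlamfin : lam E' ≠ ∞ := by
    have := hC.stat.prob
    exact ne_top_of_le_ne_top (ENNReal.mul_ne_top ENNReal.ofReal_ne_top (measure_ne_top ν E'))
      (hC.le_nu E' hE')
  have hsgfin : sg u E' ≠ ∞ := by
    obtain ⟨-, -, -, -, h5, -⟩ := hH02 Γ A u c t p E' hu hc h8t hpt hE' hEf'
    exact ne_top_of_le_ne_top (ENNReal.mul_ne_top ENNReal.ofReal_ne_top hlamfin) h5
  set S : ℝ := (sg u E').toReal with hS
  have hS0 : 0 ≤ S := ENNReal.toReal_nonneg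
  have hsg : sg u E' = ENNReal.ofReal S := by rw [hS, ENNReal.ofReal_toReal hsgfin]
  have hup : ∀ y, A.Hu u y ≤ t → (nux A ν y).real E' ≤ 2 * C * A.kk y * S := by
    intro y hy
    obtain ⟨-, -, h3, -, -, -⟩ := hH02 Γ A u c t y E' hu hc h8t hy hE' hEf'
    have h1 := hnl y E' hE'
    have hk := (hkk y).1.le
    have h2 : ENNReal.ofReal ((nux A ν y).real E') ≤ ENNReal.ofReal (2 * C * A.kk y * S) := by
      rw [← hre]
      calc nux A ν y E' ≤ ENNReal.ofReal C * lax A y E' := h1
        _ ≤ ENNReal.ofReal C * (ENNReal.ofReal (2 * A.kk y) * sg u E') := by gcongr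
        _ = ENNReal.ofReal (2 * C * A.kk y * S) := by
            rw [hsg, ← ENNReal.ofReal_mul (by positivity), ← ENNReal.ofReal_mul (by positivity)]
            congr 1
            ring
    exact (ENNReal.ofReal_le_ofReal_iff (by positivity)).1 h2
  have hlo : ∀ y, A.Hu u y ≤ t → A.kk y / 2 * S ≤ C * (nux A ν y).real E' := by
    intro y hy
    obtain ⟨-, -, -, h4, -, -⟩ := hH02 Γ A u c t y E' hu hc h8t hy hE' hEf'
    have h1 := hln y E' hE'
    have hk := (hkk y).1.le
    have h2 : ENNReal.ofReal (A.kk y / 2 * S) ≤ ENNReal.ofReal (C * (nux A ν y).real E') := by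
      rw [ENNReal.ofReal_mul (by positivity), ENNReal.ofReal_mul hC0.le, ← hsg, ← hre]
      exact h4.trans h1
    exact (ENNReal.ofReal_le_ofReal_iff (mul_nonneg hC0.le (hnn y E'))).1 h2
  have hks : ∀ x, A.Hu u x ≤ c₀ / (2 * M) * s → A.Hu u x ≤ c₀ * t ∧ A.Hu u x ≤ t ∧
      A.Hu u x ≤ s := by
    intro x hx
    have e1 : c₀ / (2 * M) * s = c₀ * t / 2 := by
      rw [ht]
      field_simp
    rw [e1] at hx
    have e2 : 0 ≤ c₀ * t := by positivity
    have e3 : c₀ * t ≤ t := by nlinarith
    exact ⟨by linarith, by linarith, by linarith⟩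
  rcases (hnn p E').eq_or_lt with hp0 | hp0
  · -- degenerate case
    have hSz : S = 0 := by
      have h1 := hlo p hpt
      rw [← hp0, mul_zero] at h1
      have h2 : 0 < A.kk p / 2 := by
        have := (hkk p).1
        positivity
      nlinarith
    refine ⟨a, a, le_rfl, hab, le_rfl, ?_, ?_⟩
    · rw [sub_self]
      exact mul_nonneg (by linarith) (by linarith)
    · intro x hx
      obtain ⟨-, hxt, hxs⟩ := hks x hx
      have h1 : (nux A ν x).real E' = 0 := by
        have h2 := hup x hxt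
        rw [hSz, mul_zero] at h2
        exact le_antisymm h2 (hnn x E')
      have h3 := hyp x hxs
      rw [h1, mul_zero, mul_zero] at h3
      rw [h1, mul_zero]
      exact h3
  · set Hp := (nux A ν p).real E with hHp
    set Hp' := (nux A ν p).real E' with hHp'
    set ρ : ℝ := Hp / Hp' with hρ
    have hpyp := hyp p (hpt.trans hts)
    have hρm : ρ * Hp' = Hp := by
      rw [hρ]
      field_simp
    have hρa : a ≤ ρ := by
      rw [hρ, le_div_iff₀ hp0]
      exact hpyp.1
    have hρb : ρ ≤ b := by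
      rw [hρ, div_le_iff₀ hp0]
      exact hpyp.2
    refine ⟨a + σ * (ρ - a), b - σ * (b - ρ), ?_, ?_, ?_, ?_, ?_⟩
    · have := mul_nonneg hσ0.le (sub_nonneg.2 hρa)
      linarith
    · have := mul_nonneg hσ0.le (sub_nonneg.2 hρb)
      linarith
    · nlinarith
    · nlinarith
    · intro x hx
      obtain ⟨hxc, hxt, hxs⟩ := hks x hx
      have hkx := (hkk x).1
      have hQ0 : 0 ≤ c₀ * A.kk x / t := by positivity
      have hq : ∀ w, ENNReal.ofReal (c₀ * A.kk x / t) * W.exi {y | A.Hu u y ≤ t} p w ≤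
          W.exi {y | A.Hu u y ≤ t} x w := by
        intro w
        calc ENNReal.ofReal (c₀ * A.kk x / t) * W.exi {y | A.Hu u y ≤ t} p w
            ≤ W.hid {y | A.Hu u y ≤ t} x p * W.exi {y | A.Hu u y ≤ t} p w := by
              gcongr
              exact hhid x hxc
          _ ≤ _ := hP10 Γ W _ x p w
      have hcomp : ∀ w, W.exi {y | A.Hu u y ≤ t} x w ≠ 0 →
          ENNReal.ofReal a * nux A ν w E' ≤ nux A ν w E ∧
            nux A ν w E ≤ ENNReal.ofReal b * nux A ν w E' := by
        intro w hw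
        have h1 : A.Hu u w ≤ s := by
          have := hexit x w hxt hw
          rwa [hMt] at this
        have h2 := hyp w h1
        rw [hre w E, hre w E', ← ENNReal.ofReal_mul ha, ← ENNReal.ofReal_mul hb]
        exact ⟨ENNReal.ofReal_le_ofReal h2.1, ENNReal.ofReal_le_ofReal h2.2⟩
      have h7 := hH07 Γ W {y | A.Hu u y ≤ t} (fun y => nux A ν y E) (fun y => nux A ν y E') x p
        (ENNReal.ofReal (c₀ * A.kk x / t)) (ENNReal.ofReal a) (ENNReal.ofReal b)
        (hbalE x) (hbalE p) (hbalE' x) (hbalE' p) hq hcomp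
      simp only [hre x E, hre x E', hre p E, hre p E'] at h7
      obtain ⟨g1, g2⟩ := H09_conv (c₀ * A.kk x / t) a b ((nux A ν x).real E) ((nux A ν x).real E')
        Hp Hp' hQ0 ha hb (hnn x E) (hnn x E') (hnn p E) (hnn p E') h7
      -- `Q Hp' ≥ σ H' x`
      have hkey : σ * (nux A ν x).real E' ≤ c₀ * A.kk x / t * Hp' := by
        have h1 := hup x hxt
        have h2 := hlo p hpt
        have h3 : c₀ * t / 2 * S ≤ C * Hp' := by
          have : c₀ * t / 2 * S ≤ A.kk p / 2 * S := by gcongr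
          exact this.trans h2
        have h4 : σ * (nux A ν x).real E' ≤ c₀ ^ 2 * A.kk x * S / (2 * C) := by
          calc σ * (nux A ν x).real E' ≤ σ * (2 * C * A.kk x * S) :=
                mul_le_mul_of_nonneg_left h1 hσ0.le
            _ = c₀ ^ 2 * A.kk x * S / (2 * C) := by
                rw [hσ]
                field_simp
                ring
        have h5 : c₀ ^ 2 * A.kk x * S / (2 * C) ≤ c₀ * A.kk x / t * Hp' := by
          have h6 : c₀ ^ 2 * A.kk x * S / (2 * C) =
              (c₀ * A.kk x / (t * C)) * (c₀ * t / 2 * S) := by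
            field_simp
          rw [h6]
          calc (c₀ * A.kk x / (t * C)) * (c₀ * t / 2 * S)
              ≤ (c₀ * A.kk x / (t * C)) * (C * Hp') :=
                mul_le_mul_of_nonneg_left h3 (by positivity)
            _ = c₀ * A.kk x / t * Hp' := by
                field_simp
        exact h4.trans h5
      set Hx := (nux A ν x).real E with hHx
      set Hx' := (nux A ν x).real E' with hHx'
      set Q := c₀ * A.kk x / t with hQ
      have e1 := mul_le_mul_of_nonneg_right hkey (sub_nonneg.2 hρa)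
      have e2 := mul_le_mul_of_nonneg_right hkey (sub_nonneg.2 hρb)
      constructor
      · have : Q * Hp = Q * Hp' * ρ := by rw [← hρm]; ring
        rw [this] at g1
        nlinarith
      · have : Q * Hp = Q * Hp' * ρ := by rw [← hρm]; ring
        rw [this] at g2
        nlinarith

end Pool.Agent.SG
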