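import Pool.Agent.helper68.SG.SpecK

/-!
# Project sg, module K11: if the periods vanish on the support of the walk then the function is constant
-/

set_option autoImplicit false

open MeasureTheory Set Metric Filter Topology
open scoped ENNReal NNReal ComplexConjugate

namespace Pool.Agent.SG

/-- A Moebius map with `|a|^2 - |b|^2 = 1` maps the open disc to itself. -/
theorem K11_mob_lt (a b z : ℂ) (hab : ‖a‖ ^ 2 - ‖b‖ ^ 2 = 1) (hz : ‖z‖ < 1) : ‖mob a b z‖ < 1 := by
  have h1 : Complex.normSq a - Complex.normSq b = 1 := by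
    rw [Complex.normSq_eq_norm_sq, Complex.normSq_eq_norm_sq]
    exact hab
  have h2 : Complex.normSq z < 1 := by
    rw [Complex.normSq_eq_norm_sq]
    have := norm_nonneg z
    nlinarith
  have h3 : Complex.normSq (conj b * z + conj a) - Complex.normSq (a * z + b) =
      1 - Complex.normSq z := by
    have e : Complex.normSq (conj b * z + conj a) - Complex.normSq (a * z + b) =
        (Complex.normSq a - Complex.normSq b) * (1 - Complex.normSq z) := by
      simp only [Complex.normSq_apply, Complex.add_re, Complex.add_im, Complex.mul_re,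
        Complex.mul_im, Complex.conj_re, Complex.conj_im]
      ring
    rw [e, h1, one_mul]
  have h4 : Complex.normSq (a * z + b) < Complex.normSq (conj b * z + conj a) := by linarith
  have h5 : ‖a * z + b‖ < ‖conj b * z + conj a‖ := by
    rw [Complex.normSq_eq_norm_sq, Complex.normSq_eq_norm_sq] at h4
    exact lt_of_pow_lt_pow_left₀ 2 (norm_nonneg _) h4
  have h6 : 0 < ‖conj b * z + conj a‖ := lt_of_le_of_lt (norm_nonneg _) h5
  unfold mob
  rw [norm_div, div_lt_one h6]
  exact h5

theorem K11 : K11_stmt := by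
  intro Γ _ A W F ψ C hF hco hψ
  have hact : ∀ γ z, ‖z‖ < 1 → ‖A.act γ z‖ < 1 := fun γ z hz =>
    K11_mob_lt _ _ _ (A.norm_eq γ) hz
  have hmul : ∀ γ δ, ψ (γ * δ) = ψ γ + ψ δ := by
    intro γ δ
    have h0 : ‖(0 : ℂ)‖ < 1 := by rw [norm_zero]; exact one_pos
    have e1 := hF.equi (γ * δ) 0 h0
    have e2 := hF.equi δ 0 h0
    have e3 := hF.equi γ (A.act δ 0) (hact δ 0 h0)
    have e4 : A.act (γ * δ) 0 = A.act γ (A.act δ 0) := A.map_mul γ δ 0 h0.le
    rw [e4, e3, e2] at e1
    linear_combination -e1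
  have hone : ψ 1 = 0 := by
    have := hmul 1 1
    rw [mul_one] at this
    linear_combination -this
  have hzero : ∀ γ, ψ γ = 0 := by
    intro γ
    have hγ : γ ∈ Submonoid.closure (W.S : Set Γ) := by
      rw [W.gen]
      exact Submonoid.mem_top γ
    induction hγ using Submonoid.closure_induction with
    | mem x hx => exact hψ x (Finset.mem_coe.1 hx)
    | one => exact hone
    | mul x y _ _ hx hy => rw [hmul, hx, hy, add_zero]
  obtain ⟨r, hr1, hr⟩ := hco
  have hr0 : 0 ≤ r := by
    obtain ⟨γ, hγ⟩ := hr 0 (by rw [norm_zero]; exact one_pos)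
    exact (norm_nonneg _).trans hγ
  have hsub : closedBall (0 : ℂ) r ⊆ ball 0 1 := closedBall_subset_ball hr1
  have hcont : ContinuousOn (fun z => ‖F z‖) (closedBall (0 : ℂ) r) :=
    (hF.diff.continuousOn.mono hsub).norm
  obtain ⟨c, hc, hmax⟩ := (isCompact_closedBall (0 : ℂ) r).exists_isMaxOn
    ⟨0, mem_closedBall_self hr0⟩ hcont
  have hmax2 : IsMaxOn (norm ∘ F) (ball (0 : ℂ) 1) c := by
    intro z hz
    rw [mem_ball_zero_iff] at hz
    obtain ⟨γ, hγ⟩ := hr z hz
    have e1 := hF.equi γ z hz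
    rw [hzero γ, add_zero] at e1
    have e2 : ‖F (A.act γ z)‖ ≤ ‖F c‖ := hmax (mem_closedBall_zero_iff.2 hγ)
    rw [e1] at e2
    exact e2
  have hconst := Complex.eqOn_of_isPreconnected_of_isMaxOn_norm
    (convex_ball (0 : ℂ) 1).isPreconnected isOpen_ball hF.diff (hsub hc) hmax2
  intro z hz
  have e1 := hconst (mem_ball_zero_iff.2 hz)
  have e2 := hconst (mem_ball_self (x := (0 : ℂ)) one_pos)
  rw [e1, e2]
  rfl

end Pool.Agent.SG
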