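import Pool.Agent.helper17.SG.SpecM

/-!
# Project sg, module M03: the stationary measure has no atoms
-/

set_option autoImplicit false

open MeasureTheory Set Metric Filter Topology
open scoped ENNReal NNReal ComplexConjugate

namespace Pool.Agent.SG

/-- A weighted mean of numbers `≤ m` that equals `m` has all terms equal to `m`. -/
theorem M03_mean {ι : Type} (S : Finset ι) (w a : ι → ℝ≥0∞) (m : ℝ≥0∞) (hm : m ≠ ∞)
    (hw0 : ∀ s ∈ S, w s ≠ 0) (hw1 : ∑ s ∈ S, w s = 1) (ha : ∀ s ∈ S, a s ≤ m)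
    (h : m ≤ ∑ s ∈ S, w s * a s) : ∀ s ∈ S, m ≤ a s := by
  classical
  intro t ht
  by_contra hlt
  rw [not_le] at hlt
  have hwt : w t ≠ ∞ := by
    have : w t ≤ 1 := by
      rw [← hw1]
      exact Finset.single_le_sum (f := w) (fun _ _ => zero_le) ht
    exact ne_top_of_le_ne_top ENNReal.one_ne_top this
  have hrest : (∑ s ∈ S.erase t, w s) * m ≠ ∞ := by
    apply ENNReal.mul_ne_top _ hm
    have : ∑ s ∈ S.erase t, w s ≤ 1 := by
      rw [← hw1]
      exact Finset.sum_le_sum_of_subset (Finset.erase_subset t S)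
    exact ne_top_of_le_ne_top ENNReal.one_ne_top this
  have h1 : ∑ s ∈ S, w s * a s ≤ w t * a t + (∑ s ∈ S.erase t, w s) * m := by
    rw [← Finset.add_sum_erase S _ ht, Finset.sum_mul]
    gcongr with s hs
    exact ha s (Finset.mem_of_mem_erase hs)
  have h2 : w t * a t < w t * m := (ENNReal.mul_lt_mul_iff_right (hw0 t ht) hwt).2 hlt
  have h3 : w t * a t + (∑ s ∈ S.erase t, w s) * m < w t * m + (∑ s ∈ S.erase t, w s) * m :=
    ENNReal.add_lt_add_right hrest h2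
  have h4 : w t * m + (∑ s ∈ S.erase t, w s) * m = m := by
    rw [← add_mul, Finset.add_sum_erase S _ ht, hw1, one_mul]
  rw [h4] at h3
  exact absurd (h.trans h1) (not_le.2 h3)

theorem M03 (hM01 : M01_stmt) (hB01 : B01_stmt) : M03_stmt := by
  classical
  intro Γ _ A W ν hS hne ξ₀
  by_contra hξ
  have := hS.prob
  obtain ⟨-, -, hone, -, hpre, hharm⟩ := hM01 Γ A W ν hS
  obtain ⟨-, -, hcirc, hact1, hactmul, hinv1, hinv2, -⟩ := hB01 Γ A
  -- finitely many big atoms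
  have hfin : ∀ ε : ℝ≥0∞, 0 < ε → {ξ : ℂ | ε ≤ ν {ξ}}.Finite := by
    intro ε hε
    refine Measure.finite_const_le_meas_of_disjoint_iUnion (μ := ν) (As := fun ξ : ℂ => {ξ}) hε
      (fun i => measurableSet_singleton i) ?_ (measure_ne_top ν _)
    intro i j hij
    simpa [Function.onFun] using hij
  have hpos : 0 < ν {ξ₀} := pos_iff_ne_zero.2 hξ
  obtain ⟨ξ₁, hξ₁, hmax⟩ := (hfin _ hpos).toFinset.exists_max_image (fun ξ => ν {ξ})
    ⟨ξ₀, (hfin _ hpos).mem_toFinset.2 (show ν {ξ₀} ≤ ν {ξ₀} from le_rfl)⟩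
  rw [Set.Finite.mem_toFinset] at hξ₁
  have hmpos : 0 < ν {ξ₁} := lt_of_lt_of_le hpos hξ₁
  set m : ℝ≥0∞ := ν {ξ₁} with hm
  have hle : ∀ ξ : ℂ, ν {ξ} ≤ m := by
    intro ξ
    by_cases h : ν {ξ₀} ≤ ν {ξ}
    · exact hmax ξ ((hfin _ hpos).mem_toFinset.2 h)
    · exact (not_le.1 h).le.trans hξ₁
  have hmtop : m ≠ ∞ := measure_ne_top ν _
  set Z : Finset ℂ := (hfin m hmpos).toFinset with hZ
  have hmem : ∀ ξ : ℂ, ξ ∈ Z ↔ m ≤ ν {ξ} := fun ξ => by
    rw [hZ, Set.Finite.mem_toFinset]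
    rfl
  have hZne : Z.Nonempty := ⟨ξ₁, (hmem ξ₁).2 le_rfl⟩
  have hZc : ∀ ζ ∈ Z, ‖ζ‖ = 1 := by
    intro ζ hζ
    by_contra hn
    have h1 : ζ ∈ circᶜ := by
      intro h
      rw [circ, mem_sphere_zero_iff_norm] at h
      exact hn h
    have h2 : ν {ζ} = 0 := measure_mono_null (singleton_subset_iff.2 h1) hS.supp
    have h3 := (hmem ζ).1 hζ
    rw [h2] at h3
    exact absurd hmpos (not_lt.2 h3)
  -- the inverse generators preserve Z
  have hinvZ : ∀ s ∈ W.S, ∀ ξ ∈ Z, A.act s⁻¹ ξ ∈ Z := by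
    intro s hs ξ hξZ
    have h1 := hharm {ξ} (measurableSet_singleton ξ) 1
    simp only [one_mul] at h1
    rw [hone] at h1
    have hbd : ∀ t ∈ W.S, nux A ν t {ξ} ≤ ν {A.act t⁻¹ ξ} := by
      intro t _
      rw [hpre t {ξ} (measurableSet_singleton ξ)]
      have hsub : A.act t ⁻¹' {ξ} ⊆ {A.act t⁻¹ ξ} ∪ circᶜ := by
        intro z hz
        by_cases hzc : z ∈ circ
        · left
          rw [mem_preimage, mem_singleton_iff] at hz
          rw [mem_singleton_iff, ← hz]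
          rw [circ, mem_sphere_zero_iff_norm] at hzc
          exact (hinv1 t z hzc.le).symm
        · right
          exact hzc
      calc ν (A.act t ⁻¹' {ξ}) ≤ ν ({A.act t⁻¹ ξ} ∪ circᶜ) := measure_mono hsub
        _ ≤ ν {A.act t⁻¹ ξ} + ν circᶜ := measure_union_le _ _
        _ = ν {A.act t⁻¹ ξ} := by rw [hS.supp, add_zero]
    have h2 : m ≤ ∑ t ∈ W.S, W.μ t * nux A ν t {ξ} := by
      rw [← h1]
      exact (hmem ξ).1 hξZ
    have h3 := M03_mean W.S W.μ (fun t => nux A ν t {ξ}) m hmtop W.pos W.sum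
      (fun t ht => (hbd t ht).trans (hle _)) h2 s hs
    exact (hmem _).2 (h3.trans (hbd s hs))
  have hgenZ : ∀ s ∈ W.S, ∀ ζ ∈ Z, A.act s ζ ∈ Z := by
    intro s hs ζ hζ
    have hinj : Set.InjOn (A.act s⁻¹) (Z : Set ℂ) := by
      intro x hx y hy hxy
      have e1 := hinv2 s x (hZc x hx).le
      have e2 := hinv2 s y (hZc y hy).le
      rw [← e1, ← e2]
      exact congrArg _ hxy
    have himg : Z.image (A.act s⁻¹) = Z := by
      apply Finset.eq_of_subset_of_card_le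
      · intro x hx
        rw [Finset.mem_image] at hx
        obtain ⟨y, hy, rfl⟩ := hx
        exact hinvZ s hs y hy
      · rw [Finset.card_image_of_injOn hinj]
    rw [← himg, Finset.mem_image] at hζ
    obtain ⟨ξ, hξZ, rfl⟩ := hζ
    rw [hinv2 s ξ (hZc ξ hξZ).le]
    exact hξZ
  have hall : ∀ γ : Γ, ∀ ζ ∈ Z, A.act γ ζ ∈ Z := by
    intro γ
    have hγ : γ ∈ Submonoid.closure (W.S : Set Γ) := by
      rw [W.gen]
      exact Submonoid.mem_top γ
    induction hγ using Submonoid.closure_induction with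
    | mem x hx => exact hgenZ x (Finset.mem_coe.1 hx)
    | one =>
      intro ζ hζ
      rw [hact1 ζ (hZc ζ hζ).le]
      exact hζ
    | mul x y _ _ hx hy =>
      intro ζ hζ
      rw [hactmul x y ζ (hZc ζ hζ).le]
      exact hx _ (hy ζ hζ)
  obtain ⟨γ, ζ, hζ, hnot⟩ := hne Z hZne hZc
  exact hnot (hall γ ζ hζ)

end Pool.Agent.SG
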